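import Pool.Agent.Helper63.XR.StB

/-!
# XR module BLK (helper12): the block structure of the matrix of the element `gx`

Statement: `Pool.Agent.Helper63.XR.StBlk` (helper63).
-/

set_option autoImplicit false

namespace Pool.Agent.Helper12.XR

open Pool.Agent.Helper63.XR
open Finset Filter Topology

section
variable {X : Type} [TopologicalSpace X]

theorem zpow_zpow_apply (h : X ≃ₜ X) (m n : ℤ) (x : X) :
    (h ^ m : X ≃ₜ X) ((h ^ n : X ≃ₜ X) x) = (h ^ (m + n) : X ≃ₜ X) x := by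
  rw [zpow_add]; rfl

theorem zpow_zero_apply (h : X ≃ₜ X) (x : X) : (h ^ (0 : ℤ) : X ≃ₜ X) x = x := by
  rw [zpow_zero]; rfl

theorem th_add (h : X ≃ₜ X) (t : X) (M : ℕ) (g g' : FS X) (i j : Fin M) :
    th h t M (g + g') i j = th h t M g i j + th h t M g' i j := by
  unfold th
  apply Finsupp.sum_add_index'
  · intro n
    split_ifs <;> rfl
  · intro n f f'
    split_ifs
    · rfl
    · rw [add_zero]

theorem th_single (h : X ≃ₜ X) (t : X) (M : ℕ) (n : ℤ) (f : C(X, ℂ)) (i j : Fin M) :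
    th h t M (Finsupp.single n f) i j =
      if ((M : ℤ) ∣ (n + (j : ℤ) - (i : ℤ))) then f ((h ^ ((i : ℕ) : ℤ) : X ≃ₜ X) t) else 0 := by
  unfold th
  apply Finsupp.sum_single_index
  split_ifs <;> rfl

theorem th_sum (h : X ≃ₜ X) (t : X) (M : ℕ) {ι : Type} (s : Finset ι) (g : ι → FS X)
    (i j : Fin M) : th h t M (∑ k ∈ s, g k) i j = ∑ k ∈ s, th h t M (g k) i j := by
  have := map_sum (AddMonoidHom.mk' (fun g => th h t M g i j)
    (fun g g' => th_add h t M g g' i j)) g s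
  exact this

/-- The entries of the matrix of `gx`. -/
theorem th_gx (h : X ≃ₜ X) (t : X) (M N : ℕ) (x0 : Matrix (Fin N) (Fin N) ℂ) (f : C(X, ℝ))
    (i j : Fin M) : th h t M (gx h x0 (cx f)) i j =
      ∑ a : Fin N, ∑ b : Fin N,
        if ((M : ℤ) ∣ ((((a : ℕ) : ℤ) - ((b : ℕ) : ℤ)) + (j : ℤ) - (i : ℤ))) then
          x0 a b * (f ((h ^ (((i : ℕ) : ℤ) - ((a : ℕ) : ℤ)) : X ≃ₜ X) t) : ℂ) else 0 := by
  unfold gx
  rw [th_sum]
  apply Finset.sum_congr rfl
  intro a _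
  rw [th_sum]
  apply Finset.sum_congr rfl
  intro b _
  rw [th_single]
  have h1 : (x0 a b • cmp h (-((a : ℕ) : ℤ)) (cx f)) ((h ^ ((i : ℕ) : ℤ) : X ≃ₜ X) t) =
      x0 a b * (f ((h ^ (((i : ℕ) : ℤ) - ((a : ℕ) : ℤ)) : X ≃ₜ X) t) : ℂ) := by
    have h2 : (x0 a b • cmp h (-((a : ℕ) : ℤ)) (cx f)) ((h ^ ((i : ℕ) : ℤ) : X ≃ₜ X) t) =
        x0 a b * (f ((h ^ (-((a : ℕ) : ℤ)) : X ≃ₜ X) ((h ^ ((i : ℕ) : ℤ) : X ≃ₜ X) t)) : ℂ) := rfl
    rw [h2, zpow_zpow_apply]
    have h3 : (-((a : ℕ) : ℤ)) + ((i : ℕ) : ℤ) = ((i : ℕ) : ℤ) - ((a : ℕ) : ℤ) := by ring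
    rw [h3]
  rw [h1]

end

/-- Module BLK. -/
theorem hBLK : StBlk := by
  classical
  intro X _ h t N x0 f hN hf01 hft hdis hcount
  have ev1 : ∀ᶠ M in rec h t, 1 ≤ M :=
    (eventually_ge_atTop 1).filter_mono inf_le_left
  have ev3 : ∀ᶠ M in rec h t, f ((h ^ ((M : ℕ) : ℤ) : X ≃ₜ X) t) ≠ 0 := by
    have h1 : ∀ᶠ x in 𝓝 t, f x ≠ 0 := by
      apply (f.continuous.continuousAt).eventually_ne
      rw [hft]; exact one_ne_zero
    exact (h1.comap (fun M : ℕ => (h ^ ((M : ℕ) : ℤ) : X ≃ₜ X) t)).filter_mono inf_le_right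
  have ev4 := hcount.filter_mono (inf_le_left : rec h t ≤ atTop)
  filter_upwards [ev1, ev3, ev4] with M hM1 hM3 hM4
  -- the set of the starting points
  set F : Finset ℕ := (Finset.range M).filter fun j => f ((h ^ ((j : ℕ) : ℤ) : X ≃ₜ X) t) ≠ 0
    with hF
  have hFmem : ∀ v, v ∈ F ↔ v < M ∧ f ((h ^ ((v : ℕ) : ℤ) : X ≃ₜ X) t) ≠ 0 := by
    intro v
    rw [hF, Finset.mem_filter, Finset.mem_range]
  -- two hits are at distance at least `N`
  have hsep : ∀ v w : ℕ, v < w → f ((h ^ ((v : ℕ) : ℤ) : X ≃ₜ X) t) ≠ 0 →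
      f ((h ^ ((w : ℕ) : ℤ) : X ≃ₜ X) t) ≠ 0 → v + N ≤ w := by
    intro v w hvw hv hw
    by_contra hcon
    have h1 := hdis ((h ^ ((v : ℕ) : ℤ) : X ≃ₜ X) t) (w - v) (by omega) (by omega)
    rw [zpow_zpow_apply] at h1
    have h2 : (((w - v : ℕ) : ℕ) : ℤ) + ((v : ℕ) : ℤ) = ((w : ℕ) : ℤ) := by omega
    rw [h2] at h1
    rcases mul_eq_zero.1 h1 with h3 | h3
    · exact hv h3
    · exact hw h3
  have hend : ∀ v ∈ F, v + N ≤ M := by
    intro v hv
    obtain ⟨h1, h2⟩ := (hFmem v).1 hv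
    exact hsep v M h1 h2 hM3
  let ι : ↥F × Fin N → Fin M := fun p => ⟨p.1.1 + p.2.1, by
    have := hend p.1.1 p.1.2
    have := p.2.2
    omega⟩
  have hιv : ∀ p, ((ι p : Fin M) : ℕ) = p.1.1 + p.2.1 := fun p => rfl
  have hinj : Function.Injective ι := by
    rintro ⟨⟨v, hv⟩, a⟩ ⟨⟨w, hw⟩, b⟩ hab
    have h1 : v + a.1 = w + b.1 := congrArg Fin.val hab
    have h2 := ((hFmem v).1 hv).2
    have h3 := ((hFmem w).1 hw).2
    have ha := a.2
    have hb := b.2
    have h4 : v = w := by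
      rcases lt_trichotomy v w with h5 | h5 | h5
      · have := hsep v w h5 h2 h3
        omega
      · exact h5
      · have := hsep w v h5 h3 h2
        omega
    subst h4
    have h6 : a = b := Fin.ext (by omega)
    rw [h6]
  -- the nonzero terms
  have hkey : ∀ (i j : Fin M) (a b : Fin N),
      ((M : ℤ) ∣ ((((a : ℕ) : ℤ) - ((b : ℕ) : ℤ)) + (j : ℤ) - (i : ℤ))) →
      f ((h ^ (((i : ℕ) : ℤ) - ((a : ℕ) : ℤ)) : X ≃ₜ X) t) ≠ 0 →
      ∃ s : ↥F, i = ι (s, a) ∧ j = ι (s, b) := by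
    intro i j a b hdvd hne
    have hai : a.1 ≤ i.1 := by
      by_contra hcon
      have h1 := hdis ((h ^ (((i : ℕ) : ℤ) - ((a : ℕ) : ℤ)) : X ≃ₜ X) t) (a.1 - i.1) (by omega)
        (by have := a.2; omega)
      rw [zpow_zpow_apply] at h1
      have h2 : (((a.1 - i.1 : ℕ) : ℕ) : ℤ) + (((i : ℕ) : ℤ) - ((a : ℕ) : ℤ)) = 0 := by omega
      rw [h2, zpow_zero_apply, hft, mul_one] at h1
      exact hne h1
    have hcast : ((i : ℕ) : ℤ) - ((a : ℕ) : ℤ) = (((i.1 - a.1 : ℕ) : ℕ) : ℤ) := by omega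
    rw [hcast] at hne
    have hv : i.1 - a.1 ∈ F := (hFmem _).2 ⟨by have := i.2; omega, hne⟩
    have hvN := hend _ hv
    refine ⟨⟨i.1 - a.1, hv⟩, ?_, ?_⟩
    · apply Fin.ext
      show i.1 = (i.1 - a.1) + a.1
      omega
    · apply Fin.ext
      show j.1 = (i.1 - a.1) + b.1
      have hj := j.2
      have hb := b.2
      obtain ⟨c, hc⟩ := hdvd
      have h5 : ((j.1 : ℕ) : ℤ) - (((i.1 - a.1) + b.1 : ℕ) : ℤ) = (M : ℤ) * c := by
        rw [← hc]; push_cast [hai]; ring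
      have hc0 : c = 0 := by
        by_contra hcne
        rcases lt_or_gt_of_ne hcne with h6 | h6
        · have h7 : (M : ℤ) * c ≤ (M : ℤ) * (-1) :=
            mul_le_mul_of_nonneg_left (by omega) (by omega)
          omega
        · have h7 : (M : ℤ) * 1 ≤ (M : ℤ) * c :=
            mul_le_mul_of_nonneg_left (by omega) (by omega)
          omega
      rw [hc0, mul_zero] at h5
      omega
  refine ⟨↥F, inferInstance, inferInstance,
    fun s => f ((h ^ ((s.1 : ℕ) : ℤ) : X ≃ₜ X) t), ι, hinj, fun s => hf01 _, ?_, ?_, ?_, ?_⟩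
  · refine ⟨⟨0, (hFmem 0).2 ⟨hM1, ?_⟩⟩, ?_⟩
    · rw [Nat.cast_zero, zpow_zero_apply, hft]; exact one_ne_zero
    · show f ((h ^ (((0 : ℕ) : ℕ) : ℤ) : X ≃ₜ X) t) = 1
      rw [Nat.cast_zero, zpow_zero_apply, hft]
  · have h1 : Fintype.card ↥F = F.card := Fintype.card_coe F
    have h2 : ((Finset.range M).filter fun j => f ((h ^ ((j : ℕ) : ℤ) : X ≃ₜ X) t) = 1).card ≤
        (univ.filter fun s : ↥F => f ((h ^ ((s.1 : ℕ) : ℤ) : X ≃ₜ X) t) = 1).card := by
      have h3 : ((Finset.range M).filter fun j => f ((h ^ ((j : ℕ) : ℤ) : X ≃ₜ X) t) = 1) ⊆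
          (univ.filter fun s : ↥F => f ((h ^ ((s.1 : ℕ) : ℤ) : X ≃ₜ X) t) = 1).image
            Subtype.val := by
        intro v hv
        rw [Finset.mem_filter, Finset.mem_range] at hv
        rw [Finset.mem_image]
        refine ⟨⟨v, (hFmem v).2 ⟨hv.1, by rw [hv.2]; exact one_ne_zero⟩⟩, ?_, rfl⟩
        rw [Finset.mem_filter]
        exact ⟨Finset.mem_univ _, hv.2⟩
      exact (Finset.card_le_card h3).trans Finset.card_image_le
    calc Fintype.card ↥F = F.card := h1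
      _ ≤ 4 * ((Finset.range M).filter fun j =>
          f ((h ^ ((j : ℕ) : ℤ) : X ≃ₜ X) t) = 1).card := hM4
      _ ≤ _ := Nat.mul_le_mul_left 4 h2
  · rintro ⟨s, a'⟩ ⟨s', b'⟩
    rw [th_gx]
    have hterm : ∀ a b : Fin N, (a, b) ≠ (a', b') ∨ s ≠ s' →
        (if ((M : ℤ) ∣ ((((a : ℕ) : ℤ) - ((b : ℕ) : ℤ)) + ((ι (s', b') : Fin M) : ℤ) -
            ((ι (s, a') : Fin M) : ℤ))) then
          x0 a b * (f ((h ^ ((((ι (s, a') : Fin M) : ℕ) : ℤ) - ((a : ℕ) : ℤ)) : X ≃ₜ X) t) : ℂ)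
          else 0) = 0 := by
      intro a b hab
      split_ifs with hd
      · by_cases hz : f ((h ^ ((((ι (s, a') : Fin M) : ℕ) : ℤ) - ((a : ℕ) : ℤ)) : X ≃ₜ X) t) = 0
        · rw [hz, Complex.ofReal_zero, mul_zero]
        · exfalso
          obtain ⟨s0, h1, h2⟩ := hkey _ _ a b hd hz
          have h3 := hinj h1
          have h4 := hinj h2
          rw [Prod.mk.injEq] at h3 h4
          rcases hab with hab | hab
          · exact hab (by rw [h3.2, h4.2])
          · exact hab (h3.1.trans h4.1.symm)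
      · rfl
    unfold blk
    by_cases hss : s = s'
    · subst hss
      rw [Finset.sum_eq_single a', Finset.sum_eq_single b']
      · have hd : ((M : ℤ) ∣ ((((a' : ℕ) : ℤ) - ((b' : ℕ) : ℤ)) + ((ι (s, b') : Fin M) : ℤ) -
            ((ι (s, a') : Fin M) : ℤ))) := by
          have : ((((a' : ℕ) : ℤ) - ((b' : ℕ) : ℤ)) + (((ι (s, b') : Fin M) : ℕ) : ℤ) -
            (((ι (s, a') : Fin M) : ℕ) : ℤ)) = 0 := by
            rw [hιv, hιv]; push_cast; ring
          rw [this]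
          exact dvd_zero _
        rw [if_pos hd, if_pos rfl]
        have h2 : ((((ι (s, a') : Fin M) : ℕ) : ℤ) - ((a' : ℕ) : ℤ)) = ((s.1 : ℕ) : ℤ) := by
          rw [hιv]; push_cast; ring
        rw [h2, mul_comm]
      · intro b _ hb
        exact hterm a' b (Or.inl fun h => hb (congrArg Prod.snd h))
      · intro hb
        exact absurd (Finset.mem_univ _) hb
      · intro a _ ha
        apply Finset.sum_eq_zero
        intro b _
        exact hterm a b (Or.inl fun h => ha (congrArg Prod.fst h))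
      · intro ha
        exact absurd (Finset.mem_univ _) ha
    · rw [if_neg hss]
      apply Finset.sum_eq_zero
      intro a _
      apply Finset.sum_eq_zero
      intro b _
      exact hterm a b (Or.inr hss)
  · intro i j hij
    rw [th_gx]
    apply Finset.sum_eq_zero
    intro a _
    apply Finset.sum_eq_zero
    intro b _
    split_ifs with hd
    · by_cases hz : f ((h ^ (((i : ℕ) : ℤ) - ((a : ℕ) : ℤ)) : X ≃ₜ X) t) = 0
      · rw [hz, Complex.ofReal_zero, mul_zero]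
      · exfalso
        obtain ⟨s0, h1, h2⟩ := hkey i j a b hd hz
        rcases hij with h3 | h3
        · exact h3 ⟨_, h1.symm⟩
        · exact h3 ⟨_, h2.symm⟩
    · rfl

end Pool.Agent.Helper12.XR
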