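import Pool.Agent.Helper63.XR.StC

/-!
# XR module EX1 (helper12): the crossed product acts on `l^1(ℤ × X)`

Statement: `Pool.Agent.Helper63.XR.StEx1` (helper63).
-/

set_option autoImplicit false

namespace Pool.Agent.Helper12.XR

open Pool.Agent.Helper63.XR
open Finset Filter Topology

/-! ### the space `l^1` -/

section
variable {α : Type}

/-- The space `l^1`. -/
abbrev L1 (α : Type) : Type := lp (fun _ : α => ℂ) 1

theorem one_pos' : 0 < (1 : ENNReal).toReal := by norm_num

theorem L1_summable (ξ : L1 α) : Summable fun i => ‖ξ i‖ := by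
  have h := (lp.memℓp ξ).summable one_pos'
  simpa using h

theorem L1_norm (ξ : L1 α) : ‖ξ‖ = ∑' i, ‖ξ i‖ := by
  rw [lp.norm_eq_tsum_rpow one_pos']
  simp

/-- The element of `l^1` of a summable function. -/
def mk1 (f : α → ℂ) (hf : Summable fun i => ‖f i‖) : L1 α :=
  ⟨f, memℓp_gen (by simpa using hf)⟩

theorem mk1_apply (f : α → ℂ) (hf : Summable fun i => ‖f i‖) (i : α) : mk1 f hf i = f i := rfl

theorem mul_summable {φ : α → ℂ} {C : ℝ} (hC : ∀ i, ‖φ i‖ ≤ C) (ξ : L1 α) :
    Summable fun i => ‖φ i * ξ i‖ := by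
  refine Summable.of_nonneg_of_le (fun i => norm_nonneg _) (fun i => ?_)
    ((L1_summable ξ).mul_left C)
  rw [norm_mul]
  exact mul_le_mul_of_nonneg_right (hC i) (norm_nonneg _)

/-- Multiplication by a bounded function. -/
noncomputable def mulOp (φ : α → ℂ) (C : ℝ) (hC : ∀ i, ‖φ i‖ ≤ C) : L1 α →L[ℂ] L1 α :=
  LinearMap.mkContinuous
    { toFun := fun ξ => mk1 (fun i => φ i * ξ i) (mul_summable hC ξ)
      map_add' := by
        intro ξ η
        apply lp.ext
        funext i
        show φ i * (ξ i + η i) = φ i * ξ i + φ i * η i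
        ring
      map_smul' := by
        intro c ξ
        apply lp.ext
        funext i
        show φ i * (c * ξ i) = c * (φ i * ξ i)
        ring } C
    (by
      intro ξ
      rw [L1_norm, L1_norm, ← tsum_mul_left]
      refine (mul_summable hC ξ).tsum_le_tsum (fun i => ?_) ((L1_summable ξ).mul_left C)
      show ‖φ i * ξ i‖ ≤ C * ‖ξ i‖
      rw [norm_mul]
      exact mul_le_mul_of_nonneg_right (hC i) (norm_nonneg _))

theorem mulOp_apply (φ : α → ℂ) (C : ℝ) (hC : ∀ i, ‖φ i‖ ≤ C) (ξ : L1 α) (i : α) :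
    mulOp φ C hC ξ i = φ i * ξ i := rfl

/-- Composition with a permutation. -/
noncomputable def cmpOp (e : α ≃ α) : L1 α →L[ℂ] L1 α :=
  LinearMap.mkContinuous
    { toFun := fun ξ => mk1 (fun i => ξ (e i)) (e.summable_iff.2 (L1_summable ξ))
      map_add' := by
        intro ξ η
        apply lp.ext
        rfl
      map_smul' := by
        intro c ξ
        apply lp.ext
        rfl } 1
    (by
      intro ξ
      rw [L1_norm, L1_norm, one_mul]
      exact (e.tsum_eq (fun i => ‖ξ i‖)).le)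

theorem cmpOp_apply (e : α ≃ α) (ξ : L1 α) (i : α) : cmpOp e ξ i = ξ (e i) := rfl

theorem op_ext {T S : L1 α →L[ℂ] L1 α} (h : ∀ ξ i, T ξ i = S ξ i) : T = S := by
  ext1 ξ
  apply lp.ext
  funext i
  exact h ξ i

end

/-! ### the operators of the crossed product -/

section
variable {X : Type} [TopologicalSpace X] [CompactSpace X]

/-- Multiplication by `f (h^m x)`. -/
noncomputable def jOp (h : X ≃ₜ X) (f : C(X, ℂ)) : L1 (ℤ × X) →L[ℂ] L1 (ℤ × X) :=
  mulOp (fun p : ℤ × X => f ((h ^ p.1 : X ≃ₜ X) p.2)) ‖f‖ (fun _ => f.norm_coe_le_norm _)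

theorem jOp_apply (h : X ≃ₜ X) (f : C(X, ℂ)) (ξ : L1 (ℤ × X)) (p : ℤ × X) :
    jOp h f ξ p = f ((h ^ p.1 : X ≃ₜ X) p.2) * ξ p := rfl

/-- The algebra homomorphism `j`. -/
noncomputable def jAlg (h : X ≃ₜ X) : C(X, ℂ) →ₐ[ℂ] (L1 (ℤ × X) →L[ℂ] L1 (ℤ × X)) :=
  AlgHom.ofLinearMap
    { toFun := jOp h
      map_add' := by
        intro f g
        apply op_ext
        intro ξ p
        show (f _ + g _) * ξ p = f _ * ξ p + g _ * ξ p
        ring
      map_smul' := by
        intro c f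
        apply op_ext
        intro ξ p
        show (c * f _) * ξ p = c * (f _ * ξ p)
        ring }
    (by
      apply op_ext
      intro ξ p
      show (1 : ℂ) * ξ p = ξ p
      ring)
    (by
      intro f g
      apply op_ext
      intro ξ p
      show (f _ * g _) * ξ p = f _ * (g _ * ξ p)
      ring)

theorem jAlg_apply (h : X ≃ₜ X) (f : C(X, ℂ)) (ξ : L1 (ℤ × X)) (p : ℤ × X) :
    jAlg h f ξ p = f ((h ^ p.1 : X ≃ₜ X) p.2) * ξ p := rfl

end

section
variable {X : Type}

/-- The permutation `(m, x) ↦ (m - n, x)`. -/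
def shE (X : Type) (n : ℤ) : ℤ × X ≃ ℤ × X where
  toFun p := (p.1 - n, p.2)
  invFun p := (p.1 + n, p.2)
  left_inv p := by simp
  right_inv p := by simp

theorem shE_apply (n : ℤ) (p : ℤ × X) : shE X n p = (p.1 - n, p.2) := rfl

theorem shE_symm_apply (n : ℤ) (p : ℤ × X) : (shE X n).symm p = (p.1 + n, p.2) := rfl

/-- The shift by `n`. -/
noncomputable def shOp (X : Type) (n : ℤ) : L1 (ℤ × X) →L[ℂ] L1 (ℤ × X) := cmpOp (shE X n)

theorem shOp_apply (n : ℤ) (ξ : L1 (ℤ × X)) (p : ℤ × X) : shOp X n ξ p = ξ (p.1 - n, p.2) := rfl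

theorem shOp_mul (m n : ℤ) : shOp X m * shOp X n = shOp X (m + n) := by
  apply op_ext
  intro ξ p
  show ξ ((p.1 - m) - n, p.2) = ξ (p.1 - (m + n), p.2)
  rw [sub_sub]

theorem shOp_zero : shOp X 0 = 1 := by
  apply op_ext
  intro ξ p
  show ξ (p.1 - 0, p.2) = ξ p
  rw [sub_zero]

/-- The shift as a unit. -/
noncomputable def shU (X : Type) (n : ℤ) : (L1 (ℤ × X) →L[ℂ] L1 (ℤ × X))ˣ where
  val := shOp X n
  inv := shOp X (-n)
  val_inv := by rw [shOp_mul, add_neg_cancel, shOp_zero]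
  inv_val := by rw [shOp_mul, neg_add_cancel, shOp_zero]

theorem shU_mul (m n : ℤ) : shU X m * shU X n = shU X (m + n) :=
  Units.ext (shOp_mul m n)

theorem shU_zpow (n : ℤ) : shU X 1 ^ n = shU X n := by
  induction n using Int.induction_on with
  | zero => rw [zpow_zero]; exact Units.ext shOp_zero.symm
  | succ n ih => rw [zpow_add_one, ih, shU_mul]
  | pred n ih =>
    rw [zpow_sub_one, ih]
    have h1 : (shU X 1)⁻¹ = shU X (-1) := Units.ext rfl
    rw [h1, shU_mul]; rfl

end

/-- Module EX1. -/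
theorem hEX1 : StEx1 := by
  intro hNub hRc hRb hRa hNlb X _ _ h
  classical
  refine ⟨L1 (ℤ × X) →L[ℂ] L1 (ℤ × X), inferInstance, inferInstance, inferInstance,
    jAlg h, shU X 1, ?_, ?_⟩
  · intro f
    apply op_ext
    intro ξ p
    show f ((h ^ (p.1 - 1) : X ≃ₜ X) p.2) * ξ (p.1 - 1, p.2) =
      f ((h ^ (-1 : ℤ) : X ≃ₜ X) ((h ^ p.1 : X ≃ₜ X) p.2)) * ξ (p.1 - 1, p.2)
    have h1 : (h ^ (-1 : ℤ) : X ≃ₜ X) ((h ^ p.1 : X ≃ₜ X) p.2) =
        (h ^ (p.1 - 1) : X ≃ₜ X) p.2 := by
      have h2 : p.1 - 1 = -1 + p.1 := by ring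
      rw [h2, zpow_add]; rfl
    rw [h1]
  · intro g
    -- the value of the operator
    have hval : ∀ (ξ : L1 (ℤ × X)) (p : ℤ × X), ev (jAlg h) (shU X 1) g ξ p =
        ∑ n ∈ g.support, g n ((h ^ p.1 : X ≃ₜ X) p.2) * ξ (p.1 - n, p.2) := by
      intro ξ p
      unfold ev Finsupp.sum
      rw [_root_.sum_apply, lp.coeFn_sum, Finset.sum_apply]
      apply Finset.sum_congr rfl
      intro n _
      show (jAlg h (g n) * ((shU X 1 ^ n : (L1 (ℤ × X) →L[ℂ] L1 (ℤ × X))ˣ) :
        L1 (ℤ × X) →L[ℂ] L1 (ℤ × X))) ξ p = _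
      rw [shU_zpow]
      rfl
    obtain ⟨hcs, hnn⟩ := hNlb X h g
    apply le_antisymm
    · -- the upper bound
      apply ContinuousLinearMap.opNorm_le_bound _ hnn
      intro ξ
      rw [L1_norm, L1_norm]
      -- each term
      have hs1 : ∀ n, Summable fun p : ℤ × X =>
          ‖g n ((h ^ p.1 : X ≃ₜ X) p.2) * ξ (p.1 - n, p.2)‖ := by
        intro n
        exact mul_summable (φ := fun p : ℤ × X => g n ((h ^ p.1 : X ≃ₜ X) p.2)) (C := ‖g n‖)
          (fun _ => (g n).norm_coe_le_norm _) (shOp X n ξ)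
      have hs2 : ∀ n, ∑' p : ℤ × X, ‖g n ((h ^ p.1 : X ≃ₜ X) p.2) * ξ (p.1 - n, p.2)‖ =
          ∑' p : ℤ × X, ‖g n ((h ^ (p.1 + n) : X ≃ₜ X) p.2)‖ * ‖ξ p‖ := by
        intro n
        rw [← (shE X n).symm.tsum_eq
          (fun p : ℤ × X => ‖g n ((h ^ p.1 : X ≃ₜ X) p.2) * ξ (p.1 - n, p.2)‖)]
        apply tsum_congr
        intro p
        rw [shE_symm_apply, norm_mul]
        have : (p.1 + n - n, p.2) = p := by rw [add_sub_cancel_right]
        show ‖g n ((h ^ (p.1 + n) : X ≃ₜ X) p.2)‖ * ‖ξ (p.1 + n - n, p.2)‖ = _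
        rw [this]
      have hs3 : ∀ n, Summable fun p : ℤ × X =>
          ‖g n ((h ^ (p.1 + n) : X ≃ₜ X) p.2)‖ * ‖ξ p‖ := by
        intro n
        refine Summable.of_nonneg_of_le (fun p => by positivity) (fun p => ?_)
          ((L1_summable ξ).mul_left ‖g n‖)
        exact mul_le_mul_of_nonneg_right ((g n).norm_coe_le_norm _) (norm_nonneg _)
      calc ∑' p : ℤ × X, ‖ev (jAlg h) (shU X 1) g ξ p‖
          ≤ ∑' p : ℤ × X, ∑ n ∈ g.support,
              ‖g n ((h ^ p.1 : X ≃ₜ X) p.2) * ξ (p.1 - n, p.2)‖ := by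
            refine (L1_summable _).tsum_le_tsum (fun p => ?_) (summable_sum fun n _ => hs1 n)
            rw [hval]
            exact norm_sum_le _ _
        _ = ∑ n ∈ g.support, ∑' p : ℤ × X,
              ‖g n ((h ^ p.1 : X ≃ₜ X) p.2) * ξ (p.1 - n, p.2)‖ :=
            Summable.tsum_finsetSum fun n _ => hs1 n
        _ = ∑ n ∈ g.support, ∑' p : ℤ × X,
              ‖g n ((h ^ (p.1 + n) : X ≃ₜ X) p.2)‖ * ‖ξ p‖ :=
            Finset.sum_congr rfl fun n _ => hs2 n
        _ = ∑' p : ℤ × X, ∑ n ∈ g.support,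
              ‖g n ((h ^ (p.1 + n) : X ≃ₜ X) p.2)‖ * ‖ξ p‖ :=
            (Summable.tsum_finsetSum fun n _ => hs3 n).symm
        _ ≤ ∑' p : ℤ × X, nrm h g * ‖ξ p‖ := by
            refine (summable_sum fun n _ => hs3 n).tsum_le_tsum (fun p => ?_)
              ((L1_summable ξ).mul_left _)
            rw [← Finset.sum_mul]
            apply mul_le_mul_of_nonneg_right _ (norm_nonneg _)
            have h1 := hcs ((h ^ p.1 : X ≃ₜ X) p.2)
            unfold Finsupp.sum at h1
            refine le_trans (le_of_eq ?_) h1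
            apply Finset.sum_congr rfl
            intro n _
            have h2 : (h ^ (p.1 + n) : X ≃ₜ X) p.2 =
                (h ^ n : X ≃ₜ X) ((h ^ p.1 : X ≃ₜ X) p.2) := by
              rw [add_comm, zpow_add]; rfl
            rw [h2]
        _ = nrm h g * ∑' p : ℤ × X, ‖ξ p‖ := tsum_mul_left
    · -- the lower bound
      apply hNub hRc hRb hRa X h g _ (norm_nonneg _)
      intro x
      set ξ : L1 (ℤ × X) := lp.single 1 ((0 : ℤ), x) (1 : ℂ) with hξ
      have hξn : ‖ξ‖ = 1 := by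
        rw [hξ, lp.norm_single (by norm_num)]; exact norm_one
      have h1 := (ev (jAlg h) (shU X 1) g).le_opNorm ξ
      rw [hξn, mul_one, L1_norm] at h1
      refine le_trans ?_ h1
      have h2 : ∀ n ∈ g.support, ‖g n ((h ^ n : X ≃ₜ X) x)‖ =
          ‖ev (jAlg h) (shU X 1) g ξ (n, x)‖ := by
        intro n hn
        rw [hval, Finset.sum_eq_single n]
        · have h3 : ξ (((n, x) : ℤ × X).1 - n, ((n, x) : ℤ × X).2) = 1 := by
            show ξ (n - n, x) = 1
            rw [sub_self, hξ]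
            exact lp.single_apply_self (E := fun _ : ℤ × X => ℂ) 1 _ _
          rw [h3, mul_one]
        · intro m _ hm
          have h3 : ξ (((n, x) : ℤ × X).1 - m, ((n, x) : ℤ × X).2) = 0 := by
            show ξ (n - m, x) = 0
            rw [hξ]
            apply lp.single_apply_ne (E := fun _ : ℤ × X => ℂ)
            intro h4
            apply hm
            have h5 : n - m = 0 := congrArg Prod.fst h4
            omega
          rw [h3, mul_zero]
        · intro hn'
          exact absurd hn hn'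
      unfold Finsupp.sum
      rw [Finset.sum_congr rfl h2]
      have h3 : Function.Injective fun n : ℤ => ((n, x) : ℤ × X) := fun a b hab =>
        congrArg Prod.fst hab
      have h4 := (L1_summable (ev (jAlg h) (shU X 1) g ξ)).sum_le_tsum
        (g.support.map ⟨_, h3⟩) (fun p _ => norm_nonneg _)
      rw [Finset.sum_map] at h4
      exact h4

end Pool.Agent.Helper12.XR
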